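import Pool.Agent.Lib.MP_5e6e69_pr.Defs

namespace Pool.Agent.Lib.MP_5e6e69_pr

open Filter Finset Topology

lemma sq_le_sqNorm {d : ℕ} (z : Fin d → ℤ) (c : Fin d) : z c ^ 2 ≤ sqNorm z :=
  Finset.single_le_sum (f := fun i => z i ^ 2) (fun _ _ => sq_nonneg _) (Finset.mem_univ c)

lemma sqNorm_nonneg {d : ℕ} (z : Fin d → ℤ) : 0 ≤ sqNorm z :=
  Finset.sum_nonneg fun _ _ => sq_nonneg _

lemma one_le_sqNorm {d : ℕ} {z : Fin d → ℤ} (hz : z ≠ 0) : 1 ≤ sqNorm z := by
  obtain ⟨c, hc⟩ := Function.ne_iff.1 hz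
  have h1 : 0 < z c ^ 2 := by
    have : z c ≠ 0 := hc
    positivity
  have := sq_le_sqNorm z c
  omega

lemma saw_bound {d n : ℕ} {ω : Fin (n + 1) → Fin d → ℤ} (h : ω ∈ SAW d n) (i : Fin (n + 1))
    (c : Fin d) : |ω i c| ≤ (i : ℕ) := by
  induction i using Fin.induction with
  | zero => simp [h.1]
  | succ i ih =>
    have h1 := sq_le_sqNorm (ω i.succ - ω i.castSucc) c
    rw [h.2.2 i] at h1
    have h2 : |ω i.succ c - ω i.castSucc c| ≤ 1 := by
      have := (sq_le_one_iff_abs_le_one _).1 h1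
      simpa using this
    simp only [Fin.val_succ, Fin.val_castSucc] at ih ⊢
    push_cast
    rw [abs_le] at *
    omega

lemma saw_finite (d n : ℕ) : (SAW d n).Finite := by
  refine Set.Finite.subset (Finset.finite_toSet
    (Fintype.piFinset fun _ : Fin (n + 1) => Fintype.piFinset fun _ : Fin d =>
      Finset.Icc (-(n : ℤ)) n)) fun ω h => ?_
  simp only [Finset.mem_coe, Fintype.mem_piFinset, Finset.mem_Icc]
  intro i c
  have h1 := saw_bound h i c
  have h2 : ((i : ℕ) : ℤ) ≤ n := by exact_mod_cast Nat.lt_succ_iff.1 i.2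
  rw [abs_le] at h1
  omega

lemma saw_nonempty {d : ℕ} (hd : 1 ≤ d) (n : ℕ) : (SAW d n).Nonempty := by
  refine ⟨fun i => Pi.single ⟨0, hd⟩ ((i : ℕ) : ℤ), by simp, ?_, ?_⟩
  · intro i j hij
    have := congrFun hij ⟨0, hd⟩
    simp only [Pi.single_eq_same, Nat.cast_inj] at this
    exact Fin.ext this
  · intro i
    simp only [Fin.val_succ, Fin.val_castSucc]
    rw [← Pi.single_sub]
    unfold sqNorm
    rw [Finset.sum_eq_single ⟨0, hd⟩]
    · simp
    · intro b _ hb
      simp [Pi.single_eq_of_ne hb]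
    · simp

lemma one_le_cnt {d : ℕ} (hd : 1 ≤ d) (n : ℕ) : 1 ≤ cnt d n := by
  unfold cnt
  exact_mod_cast (Set.ncard_pos (saw_finite d n)).2 (saw_nonempty hd n)

lemma cnt_add (d n m : ℕ) : cnt d (n + m) ≤ cnt d n * cnt d m := by
  unfold cnt
  rw [← Nat.cast_mul, Nat.cast_le, ← Set.ncard_prod]
  refine Set.ncard_le_ncard_of_injOn (fun ω =>
    (fun i : Fin (n + 1) => ω ⟨i, by omega⟩,
     fun j : Fin (m + 1) => ω ⟨n + j, by omega⟩ - ω ⟨n, by omega⟩)) ?_ ?_
    ((saw_finite d n).prod (saw_finite d m))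
  · rintro ω ⟨h0, hinj, hstep⟩
    refine ⟨⟨h0, ?_, fun i => hstep ⟨i, by omega⟩⟩, ⟨by simp, ?_, fun j => ?_⟩⟩
    · intro i j hij
      have := congrArg Fin.val (hinj hij)
      exact Fin.ext this
    · intro i j hij
      have := congrArg Fin.val (hinj (sub_left_injective hij))
      simp only at this
      exact Fin.ext (by omega)
    · have := hstep ⟨n + j, by omega⟩
      simp only [sub_sub_sub_cancel_right]
      exact this
  · intro ω _ ω' _ h
    obtain ⟨h1, h2⟩ := Prod.mk.inj h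
    have h3 : ω ⟨n, by omega⟩ = ω' ⟨n, by omega⟩ := congrFun h1 (Fin.last n)
    funext i
    by_cases hi : (i : ℕ) ≤ n
    · exact congrFun h1 ⟨i, by omega⟩
    · have h4 := congrFun h2 ⟨i - n, by omega⟩
      simp only at h4
      rw [h3] at h4
      have h5 := sub_left_injective h4
      have h6 : (⟨n + (i - n), by omega⟩ : Fin (n + m + 1)) = i := Fin.ext (by simp only; omega)
      rwa [h6] at h5

lemma cnt_mul {d : ℕ} (hd : 1 ≤ d) (n k : ℕ) : cnt d (n * (k + 1)) ≤ cnt d n ^ (k + 1) := by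
  induction k with
  | zero => simp
  | succ k ih =>
    have h1 := cnt_add d (n * (k + 1)) n
    have h2 := one_le_cnt hd n
    rw [show n * (k + 1 + 1) = n * (k + 1) + n by ring, pow_succ]
    exact h1.trans (mul_le_mul_of_nonneg_right ih (by linarith))

lemma one_le_mu {d : ℕ} (hd : 1 ≤ d) {μ : ℝ}
    (hμ : Tendsto (fun n : ℕ => cnt d n ^ (1 / (n : ℝ))) atTop (𝓝 μ)) : 1 ≤ μ :=
  ge_of_tendsto' hμ fun n => Real.one_le_rpow (one_le_cnt hd n) (by positivity)

lemma mu_pow_le {d : ℕ} (hd : 1 ≤ d) {μ : ℝ}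
    (hμ : Tendsto (fun n : ℕ => cnt d n ^ (1 / (n : ℝ))) atTop (𝓝 μ)) (n : ℕ) (hn : 1 ≤ n) :
    μ ^ n ≤ cnt d n := by
  have h0 : (0 : ℝ) < n := by exact_mod_cast hn
  have h1 : Tendsto (fun k : ℕ => n * (k + 1)) atTop atTop :=
    tendsto_atTop_mono (fun k => by simp only [id]; nlinarith) tendsto_id
  have hc := one_le_cnt hd n
  have h2 : μ ≤ cnt d n ^ (1 / (n : ℝ)) := by
    refine le_of_tendsto' (hμ.comp h1) fun k => ?_
    simp only [Function.comp]
    have h3 := one_le_cnt hd (n * (k + 1))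
    calc cnt d (n * (k + 1)) ^ (1 / ((n * (k + 1) : ℕ) : ℝ))
        ≤ (cnt d n ^ (k + 1)) ^ (1 / ((n * (k + 1) : ℕ) : ℝ)) :=
          Real.rpow_le_rpow (by linarith) (cnt_mul hd n k) (by positivity)
      _ = cnt d n ^ (1 / (n : ℝ)) := by
          rw [← Real.rpow_natCast, ← Real.rpow_mul (by linarith)]
          congr 1
          push_cast
          field_simp
  have h4 := one_le_mu hd hμ
  calc μ ^ n ≤ (cnt d n ^ (1 / (n : ℝ))) ^ n := pow_le_pow_left₀ (by linarith) h2 n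
    _ = cnt d n := by
        rw [← Real.rpow_natCast, ← Real.rpow_mul (by linarith)]
        rw [one_div_mul_cancel h0.ne', Real.rpow_one]

lemma meanSq_eq (d n : ℕ) : meanSq d n =
    (∑ ω ∈ (saw_finite d n).toFinset, (sqNorm (ω (Fin.last n)) : ℝ)) / cnt d n := by
  unfold meanSq
  rw [finsum_mem_eq_finite_toFinset_sum _ (saw_finite d n)]

lemma cnt_eq (d n : ℕ) : cnt d n = ((saw_finite d n).toFinset.card : ℝ) := by
  unfold cnt
  rw [Set.ncard_eq_toFinset_card _ (saw_finite d n)]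

lemma one_le_meanSq {d : ℕ} (hd : 1 ≤ d) {n : ℕ} (hn : 1 ≤ n) : 1 ≤ meanSq d n := by
  have hc := one_le_cnt hd n
  rw [meanSq_eq, le_div_iff₀ (by linarith), one_mul, cnt_eq]
  have : ∀ ω ∈ (saw_finite d n).toFinset, (1 : ℝ) ≤ (sqNorm (ω (Fin.last n)) : ℝ) := by
    intro ω hω
    rw [Set.Finite.mem_toFinset] at hω
    have h1 : ω (Fin.last n) ≠ 0 := by
      rw [← hω.1]
      intro h
      have := congrArg Fin.val (hω.2.1 h)
      simp at this
      omega
    exact_mod_cast one_le_sqNorm h1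
  simpa using Finset.sum_le_sum this

/-- the box of radius `R` -/
noncomputable def box (d R : ℕ) : Finset (Fin d → ℤ) :=
  Fintype.piFinset fun _ => Finset.Icc (-(R : ℤ)) R

lemma half_le_box {d : ℕ} (hd : 1 ≤ d) (n R : ℕ) (hR : 2 * meanSq d n ≤ (R : ℝ) ^ 2)
    (hR0 : 1 ≤ R) : cnt d n / 2 ≤ ∑ z ∈ box d R, cntTo d n z := by
  classical
  set S := (saw_finite d n).toFinset with hS
  have hc := one_le_cnt hd n
  have h1 : ∑ z ∈ box d R, cntTo d n z =
      ((S.filter fun ω => ω (Fin.last n) ∈ box d R).card : ℝ) := by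
    rw [Finset.card_eq_sum_card_fiberwise (f := fun ω : Fin (n + 1) → Fin d → ℤ => ω (Fin.last n))
      (s := S.filter fun ω => ω (Fin.last n) ∈ box d R) (t := box d R)
      (fun ω hω => (Finset.mem_filter.1 hω).2)]
    push_cast
    refine Finset.sum_congr rfl fun z hz => ?_
    unfold cntTo
    rw [← Set.ncard_coe_finset]
    congr 2
    ext ω
    simp only [Set.mem_ofPred_eq, Finset.coe_filter, Finset.mem_filter, hS,
      Set.Finite.mem_toFinset]
    constructor
    · rintro ⟨h1, h2⟩; exact ⟨⟨h1, h2 ▸ hz⟩, h2⟩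
    · rintro ⟨⟨h1, -⟩, h2⟩; exact ⟨h1, h2⟩
  have h2 : ((S.filter fun ω => ¬ ω (Fin.last n) ∈ box d R).card : ℝ) * (R : ℝ) ^ 2 ≤
      meanSq d n * cnt d n := by
    rw [meanSq_eq, div_mul_cancel₀ _ (by linarith), ← nsmul_eq_mul, ← Finset.sum_const]
    refine (Finset.sum_le_sum fun ω hω => ?_).trans
      (Finset.sum_le_sum_of_subset_of_nonneg (Finset.filter_subset _ _) fun ω _ _ => ?_)
    · have h3 := (Finset.mem_filter.1 hω).2
      simp only [box, Fintype.mem_piFinset, Finset.mem_Icc, not_forall] at h3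
      obtain ⟨c, hc⟩ := h3
      have h4 := sq_le_sqNorm (ω (Fin.last n)) c
      have h5 : (R : ℤ) ^ 2 ≤ ω (Fin.last n) c ^ 2 := by
        rw [sq_le_sq, abs_of_nonneg (by positivity), le_abs]
        omega
      exact_mod_cast h5.trans h4
    · exact_mod_cast sqNorm_nonneg _
  have h3 := Finset.card_filter_add_card_filter_not (s := S)
    (fun ω => ω (Fin.last n) ∈ box d R)
  have h4 : ((S.filter fun ω => ω (Fin.last n) ∈ box d R).card : ℝ) +
      ((S.filter fun ω => ¬ ω (Fin.last n) ∈ box d R).card : ℝ) = cnt d n := by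
    rw [cnt_eq]; exact_mod_cast h3
  have hR' : (1 : ℝ) ≤ R := by exact_mod_cast hR0
  have h5 : ((S.filter fun ω => ¬ ω (Fin.last n) ∈ box d R).card : ℝ) ≤ cnt d n / 2 := by
    refine le_of_mul_le_mul_right (h2.trans ?_) (by positivity : (0 : ℝ) < (R : ℝ) ^ 2)
    nlinarith
  rw [h1]
  linarith

end Pool.Agent.Lib.MP_5e6e69_pr
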