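import Mathlib

namespace Pool.Agent.Lib.MP_5e6e69_pr

/-- squared Euclidean norm of a lattice point -/
def sqNorm {d : ℕ} (z : Fin d → ℤ) : ℤ := ∑ i, z i ^ 2

/-- `n`-step self-avoiding walks on the lattice of dimension `d` starting at the origin -/
def SAW (d n : ℕ) : Set (Fin (n + 1) → Fin d → ℤ) :=
  {ω | ω 0 = 0 ∧ Function.Injective ω ∧ ∀ i : Fin n, sqNorm (ω i.succ - ω i.castSucc) = 1}

/-- number of walks -/
noncomputable def cnt (d n : ℕ) : ℝ := (SAW d n).ncard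

/-- number of walks ending at `z` -/
noncomputable def cntTo (d n : ℕ) (z : Fin d → ℤ) : ℝ :=
  {ω | ω ∈ SAW d n ∧ ω (Fin.last n) = z}.ncard

/-- mean square displacement -/
noncomputable def meanSq (d n : ℕ) : ℝ :=
  (∑ᶠ ω ∈ SAW d n, (sqNorm (ω (Fin.last n)) : ℝ)) / cnt d n

end Pool.Agent.Lib.MP_5e6e69_pr
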