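import Pool.Agent.Lib.MP_5e6e69_pr.Walks

namespace Pool.Agent.Lib.MP_5e6e69_pr

open Filter Finset Topology

lemma rpow_step {a x : ℝ} (ha0 : 0 ≤ a) (ha : a < 1) (hx : 1 ≤ x) :
    (x - 1) ^ (1 - a) + (1 - a) * x ^ (-a) ≤ x ^ (1 - a) := by
  have hx0 : 0 < x := by linarith
  have h1 : -1 ≤ -(1 / x) := by
    rw [neg_le_neg_iff, div_le_one hx0]; exact hx
  have h2 := rpow_one_add_le_one_add_mul_self h1 (p := 1 - a) (by linarith) (by linarith)
  have h3 : x - 1 = x * (1 + -(1 / x)) := by field_simp; ring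
  have h4 : x ^ (-a) = x ^ (1 - a) * (1 / x) := by
    rw [show -a = (1 - a) - 1 by ring, Real.rpow_sub_one hx0.ne']; ring
  rw [h3, Real.mul_rpow hx0.le (by linarith), h4]
  have h5 : 0 ≤ x ^ (1 - a) := by positivity
  nlinarith [mul_le_mul_of_nonneg_left h2 h5]

lemma line_sum {a : ℝ} (ha0 : 0 ≤ a) (ha : a < 1) (R : ℕ) :
    ∑ k ∈ Icc (-(R : ℤ)) R, (1 + |(k : ℝ)|) ^ (-a) ≤ 2 / (1 - a) * ((R : ℝ) + 1) ^ (1 - a) := by
  have h0 : 0 < 1 - a := by linarith
  induction R with
  | zero =>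
    simp only [Nat.cast_zero, neg_zero, Icc_self, sum_singleton, Int.cast_zero, abs_zero,
      add_zero, Real.one_rpow, zero_add, mul_one]
    rw [le_div_iff₀ h0]; linarith
  | succ R ih =>
    have h1 : Icc (-((R + 1 : ℕ) : ℤ)) ((R + 1 : ℕ) : ℤ) =
        insert (-((R : ℤ) + 1)) (insert ((R : ℤ) + 1) (Icc (-(R : ℤ)) R)) := by
      ext k; simp only [mem_Icc, mem_insert]; push_cast; omega
    rw [h1, sum_insert (by simp only [mem_Icc, mem_insert]; omega),
      sum_insert (by simp only [mem_Icc]; omega)]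
    push_cast
    rw [abs_neg, abs_of_nonneg (by positivity)]
    have h2 := rpow_step ha0 ha (x := (R : ℝ) + 1 + 1) (by linarith [(Nat.cast_nonneg R : (0:ℝ) ≤ R)])
    rw [add_sub_cancel_right] at h2
    rw [show (1 : ℝ) + (R + 1) = R + 1 + 1 by ring]
    have h3 : 2 / (1 - a) * (((R : ℝ) + 1) ^ (1 - a) + (1 - a) * ((R : ℝ) + 1 + 1) ^ (-a)) ≤
        2 / (1 - a) * ((R : ℝ) + 1 + 1) ^ (1 - a) :=
      mul_le_mul_of_nonneg_left h2 (by positivity)
    have h4 : 2 / (1 - a) * ((1 - a) * ((R : ℝ) + 1 + 1) ^ (-a)) =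
        2 * ((R : ℝ) + 1 + 1) ^ (-a) := by field_simp
    rw [mul_add, h4] at h3
    linarith

lemma pow_sum {d : ℕ} (hd : 1 ≤ d) {s : ℝ} (hs : s < d) :
    ∃ K : ℝ, ∀ R : ℕ, ∑ z ∈ (box d R).erase 0, √(sqNorm z : ℝ) ^ (-s) ≤
      K * ((R : ℝ) + 1) ^ (d - s) := by
  have hd0 : (0 : ℝ) < d := by exact_mod_cast hd
  rcases le_or_gt 0 s with hs0 | hs0
  · have ha0 : 0 ≤ s / d := by positivity
    have ha : s / d < 1 := (div_lt_one hd0).2 hs
    refine ⟨2 ^ s * (2 / (1 - s / d)) ^ d, fun R => ?_⟩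
    have h1 : ∀ z ∈ (box d R).erase 0, √(sqNorm z : ℝ) ^ (-s) ≤
        2 ^ s * ∏ i, (1 + |(z i : ℝ)|) ^ (-(s / d)) := by
      intro z hz
      have hz1 : (1 : ℝ) ≤ sqNorm z := by exact_mod_cast one_le_sqNorm (ne_of_mem_erase hz)
      have hr : 1 ≤ √(sqNorm z : ℝ) := Real.one_le_sqrt.2 hz1
      set r := √(sqNorm z : ℝ) with hrdef
      have h2 : ∀ i, (2 * r) ^ (-(s / d)) ≤ (1 + |(z i : ℝ)|) ^ (-(s / d)) := by
        intro i
        refine Real.rpow_le_rpow_of_nonpos (by positivity) ?_ (by linarith)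
        have : |(z i : ℝ)| ≤ r := Real.abs_le_sqrt (by exact_mod_cast sq_le_sqNorm z i)
        linarith
      have h3 := Finset.prod_le_prod (s := univ) (fun i _ => by positivity) fun i _ => h2 i
      rw [prod_const, card_univ, Fintype.card_fin, ← Real.rpow_natCast,
        ← Real.rpow_mul (by positivity), show -(s / d) * d = -s by field_simp,
        Real.mul_rpow (by norm_num) (by positivity)] at h3
      calc r ^ (-s) = 2 ^ s * (2 ^ (-s) * r ^ (-s)) := by
            rw [← mul_assoc, ← Real.rpow_add (by norm_num)]; simp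
        _ ≤ _ := mul_le_mul_of_nonneg_left h3 (by positivity)
    refine (sum_le_sum h1).trans ?_
    refine (sum_le_sum_of_subset_of_nonneg (erase_subset _ _) fun _ _ _ => by positivity).trans ?_
    rw [← mul_sum, mul_assoc]
    refine mul_le_mul_of_nonneg_left ?_ (by positivity)
    unfold box
    rw [← Finset.prod_univ_sum (fun _ : Fin d => Icc (-(R : ℤ)) R)
      (fun _ k => (1 + |(k : ℝ)|) ^ (-(s / d))), prod_const, card_univ, Fintype.card_fin]
    refine (pow_le_pow_left₀ (sum_nonneg fun _ _ => by positivity) (line_sum ha0 ha R) d).trans ?_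
    rw [mul_pow, ← Real.rpow_natCast (((R : ℝ) + 1) ^ (1 - s / d)),
      ← Real.rpow_mul (by positivity), show (1 - s / d) * d = d - s by field_simp]
  · refine ⟨2 ^ d * (d : ℝ) ^ (-s), fun R => ?_⟩
    have hR : (0 : ℝ) ≤ R := Nat.cast_nonneg R
    have h1 : ∀ z ∈ (box d R).erase 0, √(sqNorm z : ℝ) ^ (-s) ≤
        (d : ℝ) ^ (-s) * ((R : ℝ) + 1) ^ (-s) := by
      intro z hz
      rw [← Real.mul_rpow hd0.le (by positivity)]
      refine Real.rpow_le_rpow (Real.sqrt_nonneg _) ?_ (by linarith)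
      rw [Real.sqrt_le_left (by positivity)]
      have h2 := mem_of_mem_erase hz
      simp only [box, Fintype.mem_piFinset, mem_Icc] at h2
      have h3 : sqNorm z ≤ d * (R : ℤ) ^ 2 := by
        have : ∀ i ∈ (univ : Finset (Fin d)), z i ^ 2 ≤ (R : ℤ) ^ 2 := fun i _ =>
          sq_le_sq' (h2 i).1 (h2 i).2
        simpa [sqNorm] using sum_le_sum this
      have h4 : (sqNorm z : ℝ) ≤ d * (R : ℝ) ^ 2 := by exact_mod_cast h3
      have h5 : (1 : ℝ) ≤ d := by exact_mod_cast hd
      have h6 : (d : ℝ) * R ^ 2 ≤ d * d * (R + 1) ^ 2 := by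
        have : (R : ℝ) ^ 2 ≤ (R + 1) ^ 2 := by nlinarith
        calc (d : ℝ) * (R : ℝ) ^ 2 ≤ (d : ℝ) * ((R : ℝ) + 1) ^ 2 := by gcongr
          _ = (d : ℝ) * 1 * ((R : ℝ) + 1) ^ 2 := by ring
          _ ≤ (d : ℝ) * d * ((R : ℝ) + 1) ^ 2 := by gcongr
      nlinarith
    refine (sum_le_sum h1).trans ?_
    rw [sum_const, nsmul_eq_mul]
    have h2 : (((box d R).erase 0).card : ℝ) ≤ 2 ^ d * ((R : ℝ) + 1) ^ (d : ℝ) := by
      have h3 : (box d R).card = (2 * R + 1) ^ d := by
        simp only [box, Fintype.card_piFinset, Int.card_Icc, prod_const, card_univ,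
          Fintype.card_fin]
        congr 1
        omega
      have h4 : ((box d R).erase 0).card ≤ (2 * R + 1) ^ d := h3 ▸ card_erase_le
      have h5 : (((box d R).erase 0).card : ℝ) ≤ (2 * (R : ℝ) + 1) ^ d := by exact_mod_cast h4
      rw [Real.rpow_natCast, ← mul_pow]
      exact h5.trans (pow_le_pow_left₀ (by positivity) (by linarith) d)
    calc _ ≤ (2 ^ d * ((R : ℝ) + 1) ^ (d : ℝ)) * ((d : ℝ) ^ (-s) * ((R : ℝ) + 1) ^ (-s)) :=
          mul_le_mul_of_nonneg_right h2 (by positivity)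
      _ = _ := by
          rw [sub_eq_add_neg, Real.rpow_add (by positivity)]; ring

lemma box_sum {d : ℕ} (hd : 1 ≤ d) {s : ℝ} (hs : s < d) (G : (Fin d → ℤ) → ℝ)
    (hG0 : ∀ z, 0 ≤ G z) (hG : ∀ᶠ z in cofinite, G z ≤ √(sqNorm z : ℝ) ^ (-s)) :
    ∃ K : ℝ, ∀ R : ℕ, ∑ z ∈ box d R, G z ≤ K * ((R : ℝ) + 1) ^ (d - s) := by
  classical
  obtain ⟨K, hK⟩ := pow_sum hd hs
  rw [eventually_cofinite] at hG
  set F := insert 0 hG.toFinset with hF
  refine ⟨∑ z ∈ F, G z + K, fun R => ?_⟩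
  have h1 : (1 : ℝ) ≤ ((R : ℝ) + 1) ^ (d - s) :=
    Real.one_le_rpow (by linarith [(Nat.cast_nonneg R : (0:ℝ) ≤ R)]) (by linarith)
  have h2 : 0 ≤ ∑ z ∈ F, G z := sum_nonneg fun z _ => hG0 z
  rw [← sum_filter_add_sum_filter_not (box d R) (fun z => z ∈ F), add_mul]
  refine add_le_add ?_ (le_trans ?_ (hK R))
  · refine le_trans ?_ (le_mul_of_one_le_right h2 h1)
    exact sum_le_sum_of_subset_of_nonneg (fun z hz => (mem_filter.1 hz).2) fun z _ _ => hG0 z
  · refine (sum_le_sum (g := fun z => √(sqNorm z : ℝ) ^ (-s)) fun z hz => ?_).trans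
      (sum_le_sum_of_subset_of_nonneg (fun z hz => ?_) fun z _ _ => by positivity)
    · have h3 := (mem_filter.1 hz).2
      simp only [hF, mem_insert, Set.Finite.mem_toFinset, Set.mem_ofPred_eq, not_or,
        not_not] at h3
      exact h3.2
    · have h3 := (mem_filter.1 hz).2
      simp only [hF, mem_insert, not_or] at h3
      exact mem_erase.2 ⟨h3.1, (mem_filter.1 hz).1⟩

lemma le_rpow_of_log {f x a : ℝ} (hx : 1 < x) (hf : 0 ≤ f) (h : Real.log f / Real.log x < a) :
    f ≤ x ^ a := by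
  rcases hf.eq_or_lt with rfl | hf
  · positivity
  · rw [div_lt_iff₀ (Real.log_pos hx)] at h
    rw [Real.le_rpow_iff_log_le hf (by linarith)]
    exact h.le

lemma rpow_le_of_log {f x a : ℝ} (hx : 1 < x) (hf : 0 < f) (h : a < Real.log f / Real.log x) :
    x ^ a ≤ f := by
  rw [lt_div_iff₀ (Real.log_pos hx)] at h
  rw [Real.rpow_le_iff_le_log (by linarith) hf]
  exact h.le

theorem main {d : ℕ} (hd : 1 ≤ d) (μ γ ν η : ℝ)
    (hμ : Tendsto (fun n : ℕ => cnt d n ^ (1 / (n : ℝ))) atTop (𝓝 μ))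
    (hγ : Tendsto (fun n : ℕ => Real.log (cnt d n / μ ^ n) / Real.log n) atTop (𝓝 (γ - 1)))
    (hν : Tendsto (fun n : ℕ => Real.log (meanSq d n) / Real.log n) atTop (𝓝 (2 * ν)))
    (hG : ∀ z, Summable fun n : ℕ => cntTo d n z / μ ^ n)
    (hη : Tendsto (fun z : Fin d → ℤ => Real.log (∑' n : ℕ, cntTo d n z / μ ^ n) /
      Real.log √(sqNorm z : ℝ)) cofinite (𝓝 (-(d - 2 + η)))) :
    γ ≤ ν * (2 - η) ∧ 1 ≤ γ ∧ 0 < ν ∧ η < 2 := by
  have hμ1 := one_le_mu hd hμ
  have hγ1 : 1 ≤ γ := by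
    have : 0 ≤ γ - 1 := by
      refine ge_of_tendsto hγ ?_
      filter_upwards [eventually_ge_atTop 1] with n hn
      refine div_nonneg (Real.log_nonneg ?_) (Real.log_natCast_nonneg n)
      rw [one_le_div (by positivity)]
      exact mu_pow_le hd hμ n hn
    linarith
  have hν0 : 0 ≤ ν := by
    have : 0 ≤ 2 * ν := by
      refine ge_of_tendsto hν ?_
      filter_upwards [eventually_ge_atTop 1] with n hn
      exact div_nonneg (Real.log_nonneg (one_le_meanSq hd hn)) (Real.log_natCast_nonneg n)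
    linarith
  have hterm : ∀ n z, 0 ≤ cntTo d n z / μ ^ n := fun n z =>
    div_nonneg (Nat.cast_nonneg _) (by positivity)
  have key : ∀ t ε : ℝ, 0 < t → 2 - η < t → 0 < ε → ε < 1 → γ - ε ≤ (ν + ε) * t := by
    intro t ε ht ht' hε hε1
    obtain ⟨K, hK⟩ := box_sum hd (s := d - t) (by linarith)
      (fun z => ∑' n : ℕ, cntTo d n z / μ ^ n) (fun z => tsum_nonneg fun n => hterm n z) (by
        have h1 := hη.eventually (gt_mem_nhds (show -(d - 2 + η) < -(d - t) by linarith))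
        have h2 : ∀ᶠ z : Fin d → ℤ in cofinite, z ∉ box d 1 := by
          rw [eventually_cofinite]
          simp
        filter_upwards [h1, h2] with z hz1 hz2
        refine le_rpow_of_log ?_ (tsum_nonneg fun n => hterm n z) hz1
        rw [Real.lt_sqrt (by norm_num)]
        simp only [box, Fintype.mem_piFinset, mem_Icc, not_forall] at hz2
        obtain ⟨c, hc⟩ := hz2
        have h3 := sq_le_sqNorm z c
        have h4 : (1 : ℤ) < sqNorm z := by
          push_cast at hc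
          have : z c ≤ -2 ∨ 2 ≤ z c := by omega
          rcases this with h | h <;> nlinarith
        exact_mod_cast h4)
    rw [sub_sub_cancel] at hK
    have hK0 : 0 ≤ K := by
      have h1 := (sum_nonneg fun z _ => tsum_nonneg fun n => hterm n z).trans (hK 0)
      simpa using h1
    obtain ⟨N0, hN0⟩ := eventually_atTop.1
      ((hγ.eventually (lt_mem_nhds (show γ - ε - 1 < γ - 1 by linarith))).and
        ((hν.eventually (gt_mem_nhds (show 2 * ν < 2 * (ν + ε) by linarith))).and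
          (eventually_ge_atTop 2)))
    have hbound : ∀ N : ℕ, N0 ≤ N → (N : ℝ) ^ (γ - ε) ≤
        (4 * K * (4 * 2 ^ (ν + ε)) ^ t) * (N : ℝ) ^ ((ν + ε) * t) := by
      intro N hN
      have hN2 : (2 : ℝ) ≤ N := by exact_mod_cast (hN0 N hN).2.2
      set B : ℝ := (2 * N : ℝ) ^ (ν + ε) with hB
      have hB1 : 1 ≤ B := Real.one_le_rpow (by linarith) (by linarith)
      set R : ℕ := ⌈2 * B⌉₊ with hR
      have hR1 : 2 * B ≤ R := Nat.le_ceil _
      have hR2 : (R : ℝ) + 1 ≤ 4 * B := by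
        have := Nat.ceil_lt_add_one (show 0 ≤ 2 * B by linarith)
        linarith
      have hR0 : 1 ≤ R := by
        have : (1 : ℝ) ≤ R := by linarith
        exact_mod_cast this
      have h1 : ∀ n ∈ Ico N (2 * N), (N : ℝ) ^ (γ - ε) / (4 * N) ≤
          ∑ z ∈ box d R, cntTo d n z / μ ^ n := by
        intro n hn
        rw [mem_Ico] at hn
        obtain ⟨a1, a2, a3⟩ := hN0 n (hN.trans hn.1)
        have hn1 : (N : ℝ) ≤ n := by exact_mod_cast hn.1
        have hn2 : (n : ℝ) ≤ 2 * N := by exact_mod_cast hn.2.le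
        have hc := one_le_cnt hd n
        have b1 := rpow_le_of_log (by linarith) (by positivity) a1
        have b2 := le_rpow_of_log (by linarith)
          (zero_le_one.trans (one_le_meanSq hd (by omega))) a2
        have b3 : (n : ℝ) ^ (2 * (ν + ε)) ≤ B ^ 2 := by
          rw [hB, ← Real.rpow_natCast, ← Real.rpow_mul (by linarith), mul_comm (ν + ε)]
          exact Real.rpow_le_rpow (by linarith) hn2 (by linarith)
        have b4 := half_le_box hd n R (by nlinarith) hR0
        rw [← sum_div]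
        have b5 : (N : ℝ) ^ (γ - ε) / (2 * N) ≤ (n : ℝ) ^ (γ - ε - 1) := by
          rw [Real.rpow_sub_one (by linarith)]
          exact div_le_div₀ (by positivity)
            (Real.rpow_le_rpow (by linarith) hn1 (by linarith)) (by linarith) hn2
        calc (N : ℝ) ^ (γ - ε) / (4 * N) = (N : ℝ) ^ (γ - ε) / (2 * N) / 2 := by
              field_simp; ring
          _ ≤ cnt d n / μ ^ n / 2 := by linarith
          _ = cnt d n / 2 / μ ^ n := by ring
          _ ≤ _ := div_le_div_of_nonneg_right b4 (by positivity)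
      have h2 := sum_le_sum h1
      rw [sum_const, Nat.card_Ico, nsmul_eq_mul, show 2 * N - N = N by omega, sum_comm] at h2
      have h3 : ∑ z ∈ box d R, ∑ n ∈ Ico N (2 * N), cntTo d n z / μ ^ n ≤
          ∑ z ∈ box d R, ∑' n : ℕ, cntTo d n z / μ ^ n :=
        sum_le_sum fun z _ => (hG z).sum_le_tsum _ fun n _ => hterm n z
      have h4 : ((R : ℝ) + 1) ^ t ≤ (4 * 2 ^ (ν + ε)) ^ t * (N : ℝ) ^ ((ν + ε) * t) := by
        rw [Real.rpow_mul (by linarith), ← Real.mul_rpow (by positivity) (by positivity)]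
        refine Real.rpow_le_rpow (by positivity) ?_ ht.le
        rw [mul_assoc, ← Real.mul_rpow (by norm_num) (by linarith)]
        exact hR2
      have h5 : (N : ℝ) * ((N : ℝ) ^ (γ - ε) / (4 * N)) = (N : ℝ) ^ (γ - ε) / 4 := by
        field_simp
      have h6 := (h2.trans h3).trans ((hK R).trans (mul_le_mul_of_nonneg_left h4 hK0))
      rw [h5] at h6
      linarith
    by_contra hcon
    have hpos : 0 < γ - ε - (ν + ε) * t := by linarith
    have h1 := (tendsto_rpow_atTop hpos).comp tendsto_natCast_atTop_atTop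
    obtain ⟨N, hN1, hN2, hN3⟩ := ((h1.eventually_gt_atTop (4 * K * (4 * 2 ^ (ν + ε)) ^ t)).and
      ((eventually_ge_atTop N0).and (eventually_ge_atTop 1))).exists
    have hN : (0 : ℝ) < N := by exact_mod_cast hN3
    simp only [Function.comp] at hN1
    rw [Real.rpow_sub hN, lt_div_iff₀ (by positivity)] at hN1
    exact absurd (hbound N hN2) (not_le.2 hN1)
  have key2 : γ ≤ ν * max (2 - η) 0 := by
    have h1 : Tendsto (fun ε : ℝ => (ν + ε) * (max (2 - η) 0 + ε) + ε) (𝓝[>] 0)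
        (𝓝 ((ν + 0) * (max (2 - η) 0 + 0) + 0)) :=
      tendsto_nhdsWithin_of_tendsto_nhds (Continuous.tendsto (by fun_prop) 0)
    simp only [add_zero] at h1
    refine ge_of_tendsto h1 ?_
    filter_upwards [Ioo_mem_nhdsGT (show (0 : ℝ) < 1 by norm_num)] with ε hε
    have := key (max (2 - η) 0 + ε) ε (by linarith [le_max_right (2 - η) 0, hε.1])
      (by linarith [le_max_left (2 - η) 0, hε.1]) hε.1 hε.2
    linarith
  have hη2 : η < 2 := by
    by_contra h
    rw [max_eq_right (by linarith)] at key2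
    linarith
  rw [max_eq_left (by linarith)] at key2
  refine ⟨key2, hγ1, ?_, hη2⟩
  rcases hν0.eq_or_lt with h | h
  · rw [← h] at key2; linarith
  · exact h

end Pool.Agent.Lib.MP_5e6e69_pr
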